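import Pool.Agent.Lib_helper48.BhCapBridge
import Pool.Agent.BHX.Hausdorff

/-!
# The null sets of the Besov and Hardy–Bessel capacities, `0 < p < 1`

Full (positive) answer to Q1, with the common family of null sets.
-/

set_option autoImplicit false

open MeasureTheory
open Pool.Agent.BhCap
open scoped ContDiff

namespace Pool.Agent.Results.MP_9b3711_an.HausdorffNullSets

/-- **Full answer to Q1.**  For `0 < p < 1`, `α > 0`, any Littlewood–Paley cutoff `η`, any classes
`D`, `D'` of continuous real functions that contain `C_c^∞` (for example `C_c^∞` itself, the Schwartz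
functions, or all smooth functions) and any compact `K ⊆ ℝⁿ`: `A_{α,p,p}(K) = 0` iff `B_{α,p}(K) = 0`.
If `αp < n` this happens exactly when `K` has `(n - αp)`-dimensional Hausdorff measure zero, and if
`αp ≥ n` exactly when `K` is empty. -/
theorem result (n : ℕ) (p α : ℝ) (hp0 : 0 < p) (hp1 : p < 1) (hα : 0 < α)
    (η : EuclideanSpace ℝ (Fin n) → ℝ) (hη : IsCutoff η)
    (D D' : Set (EuclideanSpace ℝ (Fin n) → ℝ))
    (hD : ∀ u : EuclideanSpace ℝ (Fin n) → ℝ, ContDiff ℝ ∞ u → HasCompactSupport u → u ∈ D)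
    (hDc : ∀ u ∈ D, Continuous u)
    (hD' : ∀ u : EuclideanSpace ℝ (Fin n) → ℝ, ContDiff ℝ ∞ u → HasCompactSupport u → u ∈ D')
    (hDc' : ∀ u ∈ D', Continuous u)
    (K : Set (EuclideanSpace ℝ (Fin n))) (hK : IsCompact K) :
    (capA D η α p K = 0 ↔ capB D' α p K = 0) ∧
      (α * p < n → (capA D η α p K = 0 ↔ Measure.hausdorffMeasure ((n : ℝ) - α * p) K = 0)) ∧
      (n ≤ α * p → (capA D η α p K = 0 ↔ K = ∅)) := by
  refine ⟨main n p α hp0 hp1 hα η hη D D' hD hDc hD' hDc' K hK, fun h => ?_, fun h => ?_⟩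
  · rw [capA_eq]
    exact (Pool.Agent.BhcT.capA_null_iff ((isCutoff_iff η).1 hη) hp0 hp1 hα hD hDc hK).trans
      (Pool.Agent.BHX.dyNull_iff_hausdorff hK (by linarith))
  · rw [capA_eq]
    exact (Pool.Agent.BhcT.capA_null_iff ((isCutoff_iff η).1 hη) hp0 hp1 hα hD hDc hK).trans
      (Pool.Agent.Bhc.dyNull_nonpos_iff (by linarith))

end Pool.Agent.Results.MP_9b3711_an.HausdorffNullSets
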